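import Pool.Agent.H76.SD.Targets

/-! # Module FIN -/

namespace Pool.Agent.H19.SD

open Finset Pool.Agent.H76.SD
open Pool.Agent.H1.LP (Loc PD Viol Sys supp ip val Agree FS Typ kk)

theorem fin (hCOD : T_COD) (hPRM : T_PRM) : T_FIN := by
  intro ε hε
  obtain ⟨E, c, n₀, hE16, hEε, hP⟩ := hPRM ε hε
  refine ⟨c, n₀, fun n hn M P hM hsz => ?_⟩
  obtain ⟨g, t, B, hg, hkB, hBn, hpB, hgt, hEB, hng, hcl, hun, hm, hw, hfin⟩ := hP n hn
  have hun' : (M : ℝ) * (((2 ^ 2 ^ Nat.sqrt n : ℕ) : ℝ) + 1) * (1 / 2) ^ 2 ^ (2 * g) ≤ 1 / 4 := by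
    refine le_trans ?_ hun
    have h1 : (M : ℝ) ≤ 2 ^ 2 ^ Nat.sqrt n := by exact_mod_cast hM
    have h2 : (((2 ^ 2 ^ Nat.sqrt n : ℕ) : ℝ) + 1) = 2 ^ 2 ^ Nat.sqrt n + 1 := by push_cast; ring
    rw [h2]
    gcongr
  obtain ⟨m, phi, hm1, hmle, hcard, hviol, hmain⟩ := hCOD E g t n B M (2 ^ 2 ^ Nat.sqrt n) P hE16
    hg hkB hBn hpB hgt hEB hng hcl hun' hsz
  refine ⟨4 * E * g * kk E, m, phi, hm1, hmle.trans hm, hw, hcard, fun x => ?_,
    fun J I hdis hcov href => ?_⟩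
  · refine le_trans ?_ (hviol x)
    have h1 : (0 : ℝ) ≤ m / 2 ^ (4 * E * g * kk E) := by positivity
    exact mul_le_mul_of_nonneg_right (by linarith) h1
  · refine hfin _ ?_ (hmain J I _ (by positivity) hdis hcov href)
    exact Finset.sum_nonneg fun j _ => add_nonneg zero_le_one
      (Finset.sum_nonneg fun i _ => sq_nonneg _)

end Pool.Agent.H19.SD
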