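import Pool.Agent.H76.SD.Targets

/-! # Module PRM: choice of the parameters -/

namespace Pool.Agent.H19.SD

open Finset Pool.Agent.H76.SD
open Pool.Agent.H1.LP (Loc PD Viol Sys supp ip val Agree FS Typ kk)

/-- the integer part of the choice of the parameters -/
theorem prm_nat (E K s n : ℕ) (hE : 16 ≤ E) (hK : 1 ≤ K) (hs : 96 * E * K + 64 ≤ s)
    (h1 : s * s ≤ n) (h2 : n < (s + 1) * (s + 1)) :
    ∃ g B : ℕ, 3 * K ≤ B ∧ 32 * E * B ≤ s ∧ s ≤ 64 * E * B ∧ 4 * E * B * g ≤ n ∧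
      n < 4 * E * B * (g + 1) ∧ 8 * s ≤ g ∧ g ≤ 64 * s := by
  have hE0 : 0 < 32 * E := by omega
  set B := s / (32 * E) with hB
  have hB1 : 32 * E * B ≤ s := Nat.mul_div_le s (32 * E)
  have hB2 : s < 32 * E * (B + 1) := Nat.lt_mul_div_succ s hE0
  have hB0 : 3 * K ≤ B := by
    rw [hB, Nat.le_div_iff_mul_le hE0]
    nlinarith
  have hB3 : s ≤ 64 * E * B := by
    have : 32 * E * (B + 1) ≤ 64 * E * B := by nlinarith
    omega
  have hEB : 0 < 4 * E * B := Nat.mul_pos (Nat.mul_pos (by norm_num) (by omega)) (by omega)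
  set g := n / (4 * E * B) with hg
  have hg1 : 4 * E * B * g ≤ n := Nat.mul_div_le n (4 * E * B)
  have hg2 : n < 4 * E * B * (g + 1) := Nat.lt_mul_div_succ n hEB
  have hg3 : 8 * s ≤ g := by
    by_contra h
    have h3 : g + 1 ≤ 8 * s := by omega
    have h4 : 4 * E * B * (g + 1) ≤ 4 * E * B * (8 * s) := Nat.mul_le_mul_left _ h3
    have h5 : 4 * E * B * (8 * s) = 32 * E * B * s := by ring
    have h6 : 32 * E * B * s ≤ s * s := Nat.mul_le_mul_right _ hB1
    omega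
  have hg4 : g ≤ 64 * s := by
    by_contra h
    have h3 : 64 * s ≤ g := by omega
    have h4 : 4 * E * B * (64 * s) ≤ 4 * E * B * g := Nat.mul_le_mul_left _ h3
    have h5 : 4 * E * B * (64 * s) = 4 * (64 * E * B * s) := by ring
    have h6 : s * s ≤ 64 * E * B * s := Nat.mul_le_mul_right _ hB3
    have h7 : (s + 1) * (s + 1) ≤ 4 * (s * s) := by nlinarith
    omega
  exact ⟨g, B, hB0, hB1, hB3, hg1, hg2, hg3, hg4⟩

theorem le_two_pow (x : ℕ) : x + 1 ≤ 2 ^ x := Nat.lt_two_pow_self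

theorem kk_pos (E : ℕ) (hE : 16 ≤ E) : 1 ≤ kk E := by
  unfold kk
  have : 0 < E := by omega
  have h : 0 < 2 * (4 * E + 1) * E ^ 2 := by positivity
  omega

/-- the powers of two -/
theorem prm_pow (E K s n g B : ℕ) (hE : 16 ≤ E) (hK : 1 ≤ K) (hs : 96 * E * K + 64 ≤ s)
    (h2 : n < (s + 1) * (s + 1)) (hB0 : 3 * K ≤ B) (hB1 : 32 * E * B ≤ s) (hg3 : 8 * s ≤ g)
    (hg4 : g ≤ 64 * s) :
    4 * 2 ^ (4 * E + 1) * B ≤ 2 ^ g ∧ (4 * E + 1) * B + 3 * s + 4 ≤ g ∧
      (E + 1) ^ B ≤ 2 ^ s ∧ n ≤ 2 ^ (2 * g) ∧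
      8 * E * B * 2 ^ (4 * E * g * K) + 1 ≤ 2 ^ (s + 4 * E * g * K) ∧
      s + 4 * E * g * K ≤ 2 ^ (2 * g) ∧ 2 * 2 ^ s + 3 ≤ 2 ^ (2 * g) ∧
      4 * E * B * 2 ^ (4 * E * g * K) ≤ 2 ^ ((1 + 256 * E * K) * s) ∧
      4 * E * g * K ≤ (1 + 256 * E * K) * s ∧ 16 * E * B ≤ s := by
  have hEB : E * B * 32 ≤ s := by nlinarith
  have hBEB : B ≤ E * B := Nat.le_mul_of_pos_left B (by omega)
  have hEK : E ≤ E * K := Nat.le_mul_of_pos_right E (by omega)
  have hEK' : 64 * (E * K) + 64 ≤ s := by nlinarith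
  have e1 : 8 * E * B = 8 * (E * B) := by ring
  have e2 : 4 * E * B = 4 * (E * B) := by ring
  have e3 : 16 * E * B = 16 * (E * B) := by ring
  refine ⟨?_, ?_, ?_, ?_, ?_, ?_, ?_, ?_, ?_, ?_⟩
  · calc 4 * 2 ^ (4 * E + 1) * B = 2 ^ (4 * E + 3) * B := by ring
      _ ≤ 2 ^ (4 * E + 3) * 2 ^ s := by
          apply Nat.mul_le_mul_left
          have := le_two_pow s
          omega
      _ = 2 ^ (4 * E + 3 + s) := by rw [← pow_add]
      _ ≤ 2 ^ g := Nat.pow_le_pow_right (by norm_num) (by omega)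
  · have : (4 * E + 1) * B = 4 * (E * B) + B := by ring
    omega
  · calc (E + 1) ^ B ≤ (2 ^ E) ^ B := Nat.pow_le_pow_left (le_two_pow E) B
      _ = 2 ^ (E * B) := by rw [← pow_mul]
      _ ≤ 2 ^ s := Nat.pow_le_pow_right (by norm_num) (by omega)
  · calc n ≤ (s + 1) * (s + 1) := h2.le
      _ ≤ 2 ^ s * 2 ^ s := Nat.mul_le_mul (le_two_pow s) (le_two_pow s)
      _ = 2 ^ (s + s) := by rw [← pow_add]
      _ ≤ 2 ^ (2 * g) := Nat.pow_le_pow_right (by norm_num) (by omega)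
  · rw [pow_add]
    have h3 := le_two_pow s
    have h4 : 1 ≤ 2 ^ (4 * E * g * K) := Nat.one_le_two_pow
    have h5 : 8 * E * B ≤ s := by omega
    calc 8 * E * B * 2 ^ (4 * E * g * K) + 1 ≤ s * 2 ^ (4 * E * g * K) + 2 ^ (4 * E * g * K) :=
          Nat.add_le_add (Nat.mul_le_mul_right _ h5) h4
      _ = (s + 1) * 2 ^ (4 * E * g * K) := by ring
      _ ≤ 2 ^ s * 2 ^ (4 * E * g * K) := Nat.mul_le_mul_right _ h3
  · calc s + 4 * E * g * K ≤ g + 4 * (E * K) * g := by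
          have : 4 * E * g * K = 4 * (E * K) * g := by ring
          omega
      _ = (4 * (E * K) + 1) * g := by ring
      _ ≤ 2 ^ g * 2 ^ g := by
          apply Nat.mul_le_mul
          · have := le_two_pow g
            omega
          · have := le_two_pow g
            omega
      _ = 2 ^ (2 * g) := by rw [← pow_add]; congr 1; ring
  · have h3 : 2 ^ (s + 3) ≤ 2 ^ (2 * g) := Nat.pow_le_pow_right (by norm_num) (by omega)
    have h4 : 1 ≤ 2 ^ s := Nat.one_le_two_pow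
    have h5 : 2 ^ (s + 3) = 8 * 2 ^ s := by ring
    omega
  · calc 4 * E * B * 2 ^ (4 * E * g * K) ≤ 2 ^ s * 2 ^ (4 * E * g * K) := by
          apply Nat.mul_le_mul_right
          have := le_two_pow s
          omega
      _ = 2 ^ (s + 4 * E * g * K) := by rw [← pow_add]
      _ ≤ 2 ^ ((1 + 256 * E * K) * s) := by
          apply Nat.pow_le_pow_right (by norm_num)
          have h3 : 4 * (E * K) * g ≤ 4 * (E * K) * (64 * s) := Nat.mul_le_mul_left _ hg4
          have h4 : 4 * E * g * K = 4 * (E * K) * g := by ring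
          have h5 : (1 + 256 * E * K) * s = s + 4 * (E * K) * (64 * s) := by ring
          omega
  · have h3 : 4 * (E * K) * g ≤ 4 * (E * K) * (64 * s) := Nat.mul_le_mul_left _ hg4
    have h4 : 4 * E * g * K = 4 * (E * K) * g := by ring
    have h5 : (1 + 256 * E * K) * s = s + 4 * (E * K) * (64 * s) := by ring
    omega
  · omega

theorem four_mul_le (s : ℕ) (hs : 4 ≤ s) : 4 * s ≤ 2 ^ s := by
  induction s, hs using Nat.le_induction with
  | base => norm_num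
  | succ k hk ih =>
    rw [pow_succ]
    omega

/-- the first part of the error is small -/
theorem err_first (E g B s : ℕ) (hs : 4 ≤ s) (h1 : (4 * E + 1) * B + 3 * s + 4 ≤ g)
    (h2 : (E + 1) ^ B ≤ 2 ^ s) (h3 : 16 * E * B ≤ s) :
    16 * (E : ℝ) * B * (2 * 2 ^ ((4 * E + 1) * B) / 2 ^ (g * (B / E + 1)) +
      ((E : ℝ) + 1) ^ B * (1 / 2) ^ (3 * s)) ≤ (1 / 2) ^ (s + 1) := by
  have a1 : (16 : ℝ) * E * B ≤ s := by exact_mod_cast h3
  have a2 : (2 : ℝ) * 2 ^ ((4 * E + 1) * B) / 2 ^ (g * (B / E + 1)) ≤ (1 / 2) ^ (2 * s) := by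
    rw [div_le_iff₀ (by positivity)]
    have hg : g ≤ g * (B / E + 1) := Nat.le_mul_of_pos_right g (Nat.succ_pos _)
    calc (2 : ℝ) * 2 ^ ((4 * E + 1) * B) = (1 / 2) ^ (2 * s) * 2 ^ (2 * s + 1 + (4 * E + 1) * B) := by
          rw [pow_add, pow_add, one_div, inv_pow]
          field_simp
      _ ≤ (1 / 2) ^ (2 * s) * 2 ^ (g * (B / E + 1)) := by
          apply mul_le_mul_of_nonneg_left _ (by positivity)
          exact pow_le_pow_right₀ (by norm_num) (by omega)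
  have a3 : ((E : ℝ) + 1) ^ B * (1 / 2) ^ (3 * s) ≤ (1 / 2) ^ (2 * s) := by
    have h4 : ((E : ℝ) + 1) ^ B ≤ 2 ^ s := by exact_mod_cast h2
    calc ((E : ℝ) + 1) ^ B * (1 / 2) ^ (3 * s) ≤ 2 ^ s * (1 / 2) ^ (3 * s) :=
          mul_le_mul_of_nonneg_right h4 (by positivity)
      _ = (1 / 2) ^ (2 * s) := by
          have : 3 * s = s + 2 * s := by ring
          rw [this, pow_add, ← mul_assoc, ← mul_pow]
          norm_num
  have a4 : (4 * (s : ℝ)) ≤ 2 ^ s := by exact_mod_cast four_mul_le s hs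
  calc 16 * (E : ℝ) * B * (2 * 2 ^ ((4 * E + 1) * B) / 2 ^ (g * (B / E + 1)) +
        ((E : ℝ) + 1) ^ B * (1 / 2) ^ (3 * s))
      ≤ s * ((1 / 2) ^ (2 * s) + (1 / 2) ^ (2 * s)) := by
        apply mul_le_mul a1 (add_le_add a2 a3) (by positivity) (by positivity)
    _ = (4 * s) * (1 / 2) ^ s * (1 / 2) ^ (s + 1) := by
        have : 2 * s = s + s := by ring
        rw [this, pow_add, pow_succ]
        ring
    _ ≤ 2 ^ s * (1 / 2) ^ s * (1 / 2) ^ (s + 1) := by gcongr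
    _ = (1 / 2) ^ (s + 1) := by
        rw [← mul_pow]
        norm_num

/-- the second part of the error -/
theorem err_second (E g B s K : ℕ) (W : ℝ) (hW : 0 ≤ W) (h1 : (4 * E + 1) * B ≤ s)
    (h3 : 16 * E * B ≤ s) (h4 : 8 * E * B * 2 ^ (4 * E * g * K) + 1 ≤ 2 ^ (s + 4 * E * g * K)) :
    16 * (E : ℝ) * B * 2 ^ ((4 * E + 1) * B) *
      ((2 ^ (4 * g)) ^ (11 * B + 3) / (2 ^ (4 * g)) ^ (E * B)) *
      (8 * E * B * 2 ^ (4 * E * g * K) + 1) ^ 2 * W ≤
    2 ^ (4 * s + 8 * E * g * K + 4 * g * (11 * B + 3)) / 2 ^ (4 * g * (E * B)) * W := by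
  have a1 : (16 : ℝ) * E * B ≤ 2 ^ s := by
    have h5 : 16 * E * B ≤ 2 ^ s := h3.trans ((Nat.le_succ s).trans (le_two_pow s))
    exact_mod_cast h5
  have a2 : (2 : ℝ) ^ ((4 * E + 1) * B) ≤ 2 ^ s := pow_le_pow_right₀ (by norm_num) h1
  have a3 : (8 * (E : ℝ) * B * 2 ^ (4 * E * g * K) + 1) ≤ 2 ^ (s + 4 * E * g * K) := by
    exact_mod_cast h4
  apply mul_le_mul_of_nonneg_right _ hW
  calc 16 * (E : ℝ) * B * 2 ^ ((4 * E + 1) * B) *
        ((2 ^ (4 * g)) ^ (11 * B + 3) / (2 ^ (4 * g)) ^ (E * B)) *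
        (8 * E * B * 2 ^ (4 * E * g * K) + 1) ^ 2
      ≤ 2 ^ s * 2 ^ s * ((2 ^ (4 * g)) ^ (11 * B + 3) / (2 ^ (4 * g)) ^ (E * B)) *
        (2 ^ (s + 4 * E * g * K)) ^ 2 := by gcongr
    _ = 2 ^ (4 * s + 8 * E * g * K + 4 * g * (11 * B + 3)) / 2 ^ (4 * g * (E * B)) := by
        rw [← pow_mul, ← pow_mul, ← pow_mul, mul_div_assoc', div_mul_eq_mul_div, ← pow_add,
          ← pow_add, ← pow_add]
        congr 2
        ring

theorem prm : T_PRM := by
  intro ε hε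
  set E : ℕ := max 16 (Nat.ceil (24 / ε)) with hE
  have hE16 : 16 ≤ E := le_max_left _ _
  have hER : 24 / ε ≤ (E : ℝ) := (Nat.le_ceil _).trans (by exact_mod_cast le_max_right _ _)
  have hE0 : (0 : ℝ) < E := by exact_mod_cast (show 0 < E by omega)
  have hE24 : 24 ≤ ε * E := by
    rw [div_le_iff₀ hε] at hER
    linarith
  set K : ℕ := kk E with hK
  have hK1 : 1 ≤ K := kk_pos E hE16
  set C : ℕ := 64 * (12 + 8 * E * K) + 7 with hC
  set S0 : ℕ := max (96 * E * K + 64) (Nat.ceil (2 * C / ε)) with hS0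
  refine ⟨E, 1 + 256 * E * K, S0 * S0, hE16, ?_, fun n hn => ?_⟩
  · rw [div_le_iff₀ hE0]
    linarith
  set s := Nat.sqrt n with hs
  have hsS : S0 ≤ s := Nat.le_sqrt.2 hn
  have hs1 : 96 * E * K + 64 ≤ s := (le_max_left _ _).trans hsS
  have hs2 : 2 * C / ε ≤ (s : ℝ) :=
    (Nat.le_ceil _).trans (by exact_mod_cast (le_max_right _ _).trans hsS)
  have hn1 : s * s ≤ n := Nat.sqrt_le n
  have hn2 : n < (s + 1) * (s + 1) := Nat.lt_succ_sqrt n
  obtain ⟨g, B, hB0, hB1, hB3, hg1, hg2, hg3, hg4⟩ := prm_nat E K s n hE16 hK1 hs1 hn1 hn2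
  obtain ⟨c1, c2, c3, c4, c5, c6, c7, c8, c9, c10⟩ := prm_pow E K s n g B hE16 hK1 hs1 hn2 hB0 hB1
    hg3 hg4
  refine ⟨g, 3 * s, B, by omega, hB0, ?_, c1, c2, ?_, c4, ?_, ?_, c8, c9, ?_⟩
  · calc B * (4 * E * g) = 4 * E * B * g := by ring
      _ ≤ n := hg1
  · exact c3.trans (Nat.pow_le_pow_right (by norm_num) (by omega))
  · exact c5.trans (Nat.pow_le_pow_right (by norm_num) c6)
  · have h1 : (2 : ℝ) ^ 2 ^ s + 1 ≤ 2 ^ (2 ^ s + 1) := by
      have : (1 : ℝ) ≤ 2 ^ 2 ^ s := one_le_pow₀ (by norm_num)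
      rw [pow_succ]
      linarith
    calc (2 : ℝ) ^ 2 ^ s * (2 ^ 2 ^ s + 1) * (1 / 2) ^ 2 ^ (2 * g)
        ≤ 2 ^ 2 ^ s * 2 ^ (2 ^ s + 1) * (1 / 2) ^ 2 ^ (2 * g) := by gcongr
      _ = 2 ^ (2 * 2 ^ s + 1) * (1 / 2) ^ 2 ^ (2 * g) := by
          rw [← pow_add]
          congr 2
          ring
      _ ≤ 2 ^ (2 * 2 ^ s + 1) * (1 / 2) ^ (2 * 2 ^ s + 1 + 2) := by
          apply mul_le_mul_of_nonneg_left _ (by positivity)
          exact pow_le_pow_of_le_one (by norm_num) (by norm_num) (by omega)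
      _ = 1 / 4 := by
          rw [pow_add (1 / 2 : ℝ), ← mul_assoc, ← mul_pow]
          norm_num
  · intro W hW hor
    have hnR : (0 : ℝ) ≤ n := Nat.cast_nonneg n
    rcases hor with h | h
    · -- the main case
      have e1 := err_first E g B s (by omega) c2 c3 c10
      have h1B : (4 * E + 1) * B ≤ s := by
        have : 32 * E * B = 4 * E * B + 28 * (E * B) := by ring
        have h5 : (4 * E + 1) * B = 4 * E * B + B := by ring
        have h6 : B ≤ E * B := Nat.le_mul_of_pos_left B (by omega)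
        omega
      have e2 := err_second E g B s K W hW h1B c10 c5
      have e3 : (1 / 2 : ℝ) ^ s ≤ (1 / 2) ^ (s + 1) +
          2 ^ (4 * s + 8 * E * g * K + 4 * g * (11 * B + 3)) / 2 ^ (4 * g * (E * B)) * W := by
        refine h.trans ?_
        unfold err
        exact add_le_add e1 e2
      have e4 : (1 / 2 : ℝ) ^ (s + 1) ≤
          2 ^ (4 * s + 8 * E * g * K + 4 * g * (11 * B + 3)) / 2 ^ (4 * g * (E * B)) * W := by
        have : (1 / 2 : ℝ) ^ s = 2 * (1 / 2) ^ (s + 1) := by rw [pow_succ]; ring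
        linarith
      set Y : ℕ := 4 * s + 8 * E * g * K + 4 * g * (11 * B + 3) with hY
      have e5 : (2 : ℝ) ^ (4 * g * (E * B)) ≤ 2 ^ (Y + (s + 1)) * W := by
        have h7 : (2 : ℝ) ^ (4 * g * (E * B)) * 2 ^ (s + 1) * (1 / 2) ^ (s + 1) ≤
            (2 : ℝ) ^ (4 * g * (E * B)) * 2 ^ (s + 1) * (2 ^ Y / 2 ^ (4 * g * (E * B)) * W) :=
          mul_le_mul_of_nonneg_left e4 (by positivity)
        have h8 : (2 : ℝ) ^ (4 * g * (E * B)) * 2 ^ (s + 1) * (1 / 2) ^ (s + 1) =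
            2 ^ (4 * g * (E * B)) := by
          rw [mul_assoc, ← mul_pow]
          norm_num
        have h9 : (2 : ℝ) ^ (4 * g * (E * B)) * 2 ^ (s + 1) *
            (2 ^ Y / 2 ^ (4 * g * (E * B)) * W) = 2 ^ (Y + (s + 1)) * W := by
          rw [pow_add 2 Y (s + 1)]
          field_simp
        rw [h8, h9] at h7
        exact h7
      have e6 : ((1 - ε) * n : ℝ) ≤ ((4 * g * (E * B) : ℕ) : ℝ) - ((Y + (s + 1) : ℕ) : ℝ) := by
        have f1 : (n : ℝ) < 4 * E * B * (g + 1) := by exact_mod_cast hg2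
        have f2 : (32 : ℝ) * E * B ≤ s := by exact_mod_cast hB1
        have f3 : (4 : ℝ) * E * B * g ≤ n := by exact_mod_cast hg1
        have f4 : (g : ℝ) ≤ 64 * s := by exact_mod_cast hg4
        have f5 : (s : ℝ) * s ≤ n := by exact_mod_cast hn1
        have f6 : (2 : ℝ) * C ≤ ε * s := by
          rw [div_le_iff₀ hε] at hs2
          linarith
        have f7 : (0 : ℝ) ≤ B := Nat.cast_nonneg B
        have f8 : (0 : ℝ) ≤ g := Nat.cast_nonneg g
        have f9 : (64 : ℝ) ≤ s := by exact_mod_cast (show 64 ≤ s by omega)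
        have f10 : (0 : ℝ) ≤ K := Nat.cast_nonneg K
        -- 44 g B ≤ (11 / 24) ε n
        have f11 : 44 * (g : ℝ) * B ≤ 11 / 24 * ε * n := by
          have h1 : 44 * (g : ℝ) * B * 24 ≤ 44 * (g : ℝ) * B * (ε * E) :=
            mul_le_mul_of_nonneg_left hE24 (by positivity)
          have h2 : 44 * (g : ℝ) * B * (ε * E) = 11 * ε * (4 * E * B * g) := by ring
          have h3 : 11 * ε * (4 * E * B * g) ≤ 11 * ε * n :=
            mul_le_mul_of_nonneg_left f3 (by positivity)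
          linarith
        -- C s ≤ (ε / 2) n
        have f12 : (C : ℝ) * s ≤ ε / 2 * n := by
          have h1 : 2 * (C : ℝ) * s ≤ ε * s * s := mul_le_mul_of_nonneg_right f6 (by linarith)
          have h2 : ε * (s * s) ≤ ε * n := mul_le_mul_of_nonneg_left f5 hε.le
          nlinarith
        have f13 : (C : ℝ) = 64 * (12 + 8 * E * K) + 7 := by rw [hC]; push_cast; ring
        have f14 : (12 + 8 * (E : ℝ) * K) * g ≤ (12 + 8 * E * K) * (64 * s) :=
          mul_le_mul_of_nonneg_left f4 (by positivity)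
        rw [hY]
        push_cast
        have f15 : (4 : ℝ) * g * (E * B) = 4 * E * B * (g + 1) - 4 * E * B := by ring
        have f16 : (4 : ℝ) * E * B ≤ s := by
          have : (0 : ℝ) ≤ E * B := by positivity
          linarith
        have f17 : (4 : ℝ) * s + 8 * E * g * K + 4 * g * (11 * B + 3) + (s + 1) =
          44 * g * B + (12 + 8 * E * K) * g + 5 * s + 1 := by ring
        rw [f17, f15]
        have f18 : (C : ℝ) * s = (12 + 8 * E * K) * (64 * s) + 7 * s := by rw [f13]; ring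
        have f19 : (1 - ε) * (n : ℝ) = n - ε * n := by ring
        rw [f19]
        have f20 : ε * (n : ℝ) = 11 / 24 * ε * n + ε / 2 * n + 1 / 24 * (ε * n) := by ring
        have f21 : 0 ≤ ε * (n : ℝ) := by positivity
        linarith
      calc (2 : ℝ) ^ ((1 - ε) * n) ≤
            (2 : ℝ) ^ (((4 * g * (E * B) : ℕ) : ℝ) - ((Y + (s + 1) : ℕ) : ℝ)) :=
            Real.rpow_le_rpow_of_exponent_le (by norm_num) e6
        _ = 2 ^ (4 * g * (E * B)) / 2 ^ (Y + (s + 1)) := by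
            rw [Real.rpow_sub (by norm_num), Real.rpow_natCast, Real.rpow_natCast]
        _ ≤ W := by
            rw [div_le_iff₀ (by positivity)]
            linarith
    · refine le_trans ?_ h
      calc (2 : ℝ) ^ ((1 - ε) * n) ≤ 2 ^ (n : ℝ) := by
            apply Real.rpow_le_rpow_of_exponent_le (by norm_num)
            nlinarith
        _ = 2 ^ n := Real.rpow_natCast 2 n

end Pool.Agent.H19.SD
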