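import Pool.Agent.H76.SD.Targets

/-! # Module TYC -/

namespace Pool.Agent.H19.SD

open Finset Pool.Agent.H76.SD
open Pool.Agent.H1.LP (Loc PD Viol Sys supp ip val Agree FS Typ kk)

theorem prod_sum_fun {B : ℕ} {Q R : Type} [Fintype Q] [DecidableEq Q] [CommSemiring R]
    (f : Fin B → Q → R) : ∑ x : Fin B → Q, ∏ j, f j (x j) = ∏ j, ∑ q, f j q := by
  rw [Finset.prod_univ_sum, Fintype.piFinset_univ]

theorem addChar_sum {ι M : Type} [AddCommMonoid M] (ψ : AddChar M ℂ) (s : Finset ι)
    (f : ι → M) : ψ (∑ i ∈ s, f i) = ∏ i ∈ s, ψ (f i) := by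
  classical
  induction s using Finset.induction_on with
  | empty => simp
  | insert a s ha ih => rw [Finset.sum_insert ha, Finset.prod_insert ha, AddChar.map_add_eq_mul, ih]

theorem tyc : T_TYC := by
  intro p B g hp Q _ _ al T w hbal l hl hlT
  classical
  set c : Fin B → Q → ℝ := fun j q => if j ∈ T then (if q = w j then 1 else 0) else 1 with hc
  have hV : ∀ x : Fin B → Q, (if Agree T x w then (1 : ℝ) else 0) = ∏ j, c j (x j) := by
    intro x
    by_cases h : Agree T x w
    · rw [if_pos h]
      symm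
      refine Finset.prod_eq_one fun j _ => ?_
      simp only [hc]
      by_cases hj : j ∈ T
      · rw [if_pos hj, if_pos (h j hj)]
      · rw [if_neg hj]
    · rw [if_neg h]
      symm
      have h1 : ∃ j ∈ T, x j ≠ w j := by
        by_contra h2
        push Not at h2
        exact h h2
      obtain ⟨j, hj, hne⟩ := h1
      refine Finset.prod_eq_zero (Finset.mem_univ j) ?_
      simp only [hc]
      rw [if_pos hj, if_neg hne]
  have hsum : ∑ x : Fin B → Q, (if Agree T x w then (1 : ℝ) else 0) = ∏ j, ∑ q, c j q := by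
    rw [← prod_sum_fun]
    exact Finset.sum_congr rfl fun x _ => hV x
  have hFS : FS (fun x => if Agree T x w then (1 : ℝ) else 0) l al =
      ∏ j, ∑ q, ((c j q : ℝ) : ℂ) * ZMod.stdAddChar (l j * al j q) := by
    rw [← prod_sum_fun, FS]
    refine Finset.sum_congr rfl fun x _ => ?_
    rw [hV x, Complex.ofReal_prod, Finset.prod_mul_distrib]
    congr 1
    unfold ip Pool.Agent.H1.LP.val
    rw [addChar_sum]
  have hcard : (2 : ℝ) ^ (g * (supp l).card) = ∏ j, (if l j ≠ 0 then (2 : ℝ) ^ g else 1) := by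
    rw [pow_mul, Finset.prod_ite, Finset.prod_const, Finset.prod_const_one, mul_one]
    rfl
  have hn0 : ∀ j, 0 ≤ ∑ q, c j q := by
    intro j
    refine Finset.sum_nonneg fun q _ => ?_
    simp only [hc]
    split_ifs <;> norm_num
  have hmain : ‖FS (fun x => if Agree T x w then (1 : ℝ) else 0) l al‖ *
      2 ^ (g * (supp l).card) ≤ ∏ j, ∑ q, c j q := by
    rw [hFS, norm_prod, hcard, ← Finset.prod_mul_distrib]
    refine Finset.prod_le_prod (fun j _ => by positivity) fun j _ => ?_
    by_cases hj : j ∈ T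
    · rw [if_neg (by rw [hlT j hj]; simp), mul_one]
      have h1 : ∑ q, ((c j q : ℝ) : ℂ) * ZMod.stdAddChar (l j * al j q) =
          ZMod.stdAddChar (l j * al j (w j)) := by
        rw [Finset.sum_eq_single (w j)]
        · simp [hc, hj]
        · intro q _ hq
          simp [hc, hj, hq]
        · intro h
          exact absurd (Finset.mem_univ _) h
      have h2 : ∑ q, c j q = 1 := by
        simp [hc, hj]
      rw [h1, h2, AddChar.norm_apply]
    · have h2 : ∑ q, c j q = Fintype.card Q := by
        simp [hc, hj]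
      rw [h2]
      have h1 : ∑ q, ((c j q : ℝ) : ℂ) * ZMod.stdAddChar (l j * al j q) =
          ∑ q, (ZMod.stdAddChar (l j * al j q) : ℂ) := by
        refine Finset.sum_congr rfl fun q _ => ?_
        simp [hc, hj]
      rw [h1]
      by_cases hl0 : l j = 0
      · rw [if_neg (by simp [hl0]), mul_one, hl0]
        simp
      · rw [if_pos hl0]
        exact hbal j (l j) hl0
  have h0 : 0 ≤ ∑ x : Fin B → Q, (if Agree T x w then (1 : ℝ) else 0) :=
    Finset.sum_nonneg fun x _ => by split_ifs <;> norm_num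
  calc ‖FS (fun x => if Agree T x w then (1 : ℝ) else 0) l al‖ * 2 ^ (g * (supp l).card)
      ≤ ∑ x : Fin B → Q, (if Agree T x w then (1 : ℝ) else 0) := by rw [hsum]; exact hmain
    _ ≤ 2 * ∑ x : Fin B → Q, (if Agree T x w then (1 : ℝ) else 0) := by linarith

end Pool.Agent.H19.SD
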